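import Mathlib

/-!
# Project RS (helper906): ELOW, the analysis (helper42)
-/

set_option autoImplicit false

namespace Pool.Agent.N42.RSA

open Finset Filter Topology

section

variable {ι : Type} (N : ι → ℝ)

/-- the counting function -/
noncomputable def cf (T : ℝ) : ℝ := (Set.ncard {v | N v ≤ T} : ℝ)

/-- the prime ideal theorem for the norms `N` -/
def PITn : Prop :=
  Tendsto (fun n : ℕ => (Set.ncard {v | N v ≤ n} : ℝ) * Real.log n / n) atTop (𝓝 1)

variable {N}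

theorem fin (hP : PITn N) (T : ℝ) : {v | N v ≤ T}.Finite := by
  have h1 : ∀ᶠ n : ℕ in atTop, (1 / 2 : ℝ) < (Set.ncard {v | N v ≤ n} : ℝ) * Real.log n / n :=
    hP.eventually (lt_mem_nhds (by norm_num))
  obtain ⟨n, hn, hT⟩ := (h1.and (eventually_ge_atTop ⌈T⌉₊)).exists
  have h3 : {v | N v ≤ n}.Finite := by
    apply Set.finite_of_ncard_ne_zero
    intro h0
    rw [h0] at hn
    norm_num at hn
  refine h3.subset fun v hv => ?_
  have h4 : (⌈T⌉₊ : ℝ) ≤ n := by exact_mod_cast hT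
  exact le_trans hv (le_trans (Nat.le_ceil T) h4)

theorem cf_floor (hint : ∀ v, ∃ n : ℕ, N v = n) {T : ℝ} (hT : 0 ≤ T) :
    cf N T = (Set.ncard {v | N v ≤ ((⌊T⌋₊ : ℕ) : ℝ)} : ℝ) := by
  unfold cf
  congr 2
  ext v
  obtain ⟨n, hn⟩ := hint v
  show N v ≤ T ↔ N v ≤ ((⌊T⌋₊ : ℕ) : ℝ)
  rw [hn, Nat.cast_le, Nat.le_floor_iff hT]

theorem log_floor : Tendsto (fun T : ℝ => Real.log T / Real.log (⌊T⌋₊ : ℝ)) atTop (𝓝 1) := by
  have a2 : Tendsto (fun T : ℝ => (⌊T⌋₊ : ℝ) / T) atTop (𝓝 1) := tendsto_nat_floor_div_atTop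
  have a3 : Tendsto (fun T : ℝ => Real.log ((⌊T⌋₊ : ℝ) / T)) atTop (𝓝 0) := by
    have := (Real.continuousAt_log (one_ne_zero)).tendsto.comp a2
    rwa [Real.log_one] at this
  have a4 : Tendsto (fun T : ℝ => Real.log (⌊T⌋₊ : ℝ)) atTop atTop :=
    Real.tendsto_log_atTop.comp (tendsto_natCast_atTop_atTop.comp tendsto_nat_floor_atTop)
  have a5 : Tendsto (fun T : ℝ => 1 - Real.log ((⌊T⌋₊ : ℝ) / T) / Real.log (⌊T⌋₊ : ℝ)) atTop
      (𝓝 (1 - 0)) := tendsto_const_nhds.sub (a3.div_atTop a4)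
  rw [sub_zero] at a5
  refine a5.congr' ?_
  filter_upwards [eventually_ge_atTop (3 : ℝ)] with T hT
  have h1 : (3 : ℝ) ≤ ⌊T⌋₊ := by
    have : 3 ≤ ⌊T⌋₊ := Nat.le_floor (by exact_mod_cast hT)
    exact_mod_cast this
  have h2 : Real.log (⌊T⌋₊ : ℝ) ≠ 0 := (Real.log_pos (by linarith)).ne'
  rw [Real.log_div (by positivity) (by positivity)]
  field_simp
  ring

theorem lim (hP : PITn N) (hint : ∀ v, ∃ n : ℕ, N v = n) :
    Tendsto (fun T : ℝ => cf N T * Real.log T / T) atTop (𝓝 1) := by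
  have a1 : Tendsto (fun T : ℝ => (Set.ncard {v | N v ≤ ((⌊T⌋₊ : ℕ) : ℝ)} : ℝ) *
      Real.log (⌊T⌋₊ : ℝ) / (⌊T⌋₊ : ℝ)) atTop (𝓝 1) :=
    Tendsto.comp (g := fun n : ℕ => (Set.ncard {v | N v ≤ n} : ℝ) * Real.log n / n) hP
      tendsto_nat_floor_atTop
  have a2 : Tendsto (fun T : ℝ => (⌊T⌋₊ : ℝ) / T) atTop (𝓝 1) := tendsto_nat_floor_div_atTop
  have a4 := (a1.mul log_floor).mul a2
  rw [one_mul, one_mul] at a4
  refine a4.congr' ?_
  filter_upwards [eventually_ge_atTop (3 : ℝ)] with T hT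
  have h1 : (3 : ℝ) ≤ ⌊T⌋₊ := by
    have : 3 ≤ ⌊T⌋₊ := Nat.le_floor (by exact_mod_cast hT)
    exact_mod_cast this
  have h2 : Real.log (⌊T⌋₊ : ℝ) ≠ 0 := (Real.log_pos (by linarith)).ne'
  have h3 : (⌊T⌋₊ : ℝ) ≠ 0 := by positivity
  rw [cf_floor hint (by linarith)]
  field_simp

theorem log_ratio {lam : ℝ} (hl : 1 < lam) :
    Tendsto (fun T : ℝ => Real.log T / Real.log (lam * T)) atTop (𝓝 1) := by
  have a4 : Tendsto (fun T : ℝ => Real.log (lam * T)) atTop atTop :=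
    Real.tendsto_log_atTop.comp (tendsto_id.const_mul_atTop (by linarith))
  have a5 : Tendsto (fun T : ℝ => 1 - Real.log lam / Real.log (lam * T)) atTop (𝓝 (1 - 0)) :=
    tendsto_const_nhds.sub (tendsto_const_nhds.div_atTop a4)
  rw [sub_zero] at a5
  refine a5.congr' ?_
  filter_upwards [eventually_ge_atTop (3 : ℝ)] with T hT
  have h2 : Real.log (lam * T) ≠ 0 := (Real.log_pos (by nlinarith)).ne'
  have h3 : Real.log (lam * T) = Real.log lam + Real.log T :=
    Real.log_mul (by positivity) (by positivity)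
  field_simp
  rw [h3]
  ring

theorem lim2 (hP : PITn N) (hint : ∀ v, ∃ n : ℕ, N v = n) {lam : ℝ} (hl : 1 < lam) :
    Tendsto (fun T : ℝ => (cf N (lam * T) - cf N T) * Real.log T / T) atTop (𝓝 (lam - 1)) := by
  have a0 := lim hP hint
  have a1 : Tendsto (fun T : ℝ => cf N (lam * T) * Real.log (lam * T) / (lam * T)) atTop (𝓝 1) :=
    Tendsto.comp (g := fun T : ℝ => cf N T * Real.log T / T) a0
      (tendsto_id.const_mul_atTop (by linarith))
  have a2 := ((a1.mul (log_ratio hl)).const_mul lam).sub a0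
  rw [mul_one, mul_one] at a2
  refine a2.congr' ?_
  filter_upwards [eventually_ge_atTop (3 : ℝ)] with T hT
  have h2 : Real.log (lam * T) ≠ 0 := (Real.log_pos (by nlinarith)).ne'
  field_simp

theorem blk (hP : PITn N) (hint : ∀ v, ∃ n : ℕ, N v = n) {lam η : ℝ} (hl : 1 < lam) (hη : 0 < η) :
    ∃ T₀ : ℝ, 3 ≤ T₀ ∧ ∀ T, T₀ ≤ T →
      (1 - η) * (lam - 1) * (T / Real.log T) ≤ cf N (lam * T) - cf N T := by
  have h1 : ∀ᶠ T : ℝ in atTop, (1 - η) * (lam - 1) <
      (cf N (lam * T) - cf N T) * Real.log T / T :=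
    (lim2 hP hint hl).eventually (lt_mem_nhds (by nlinarith))
  obtain ⟨T₁, hT₁⟩ := (h1.and (eventually_ge_atTop (3 : ℝ))).exists_forall_of_atTop
  refine ⟨max T₁ 3, le_max_right _ _, fun T hT => ?_⟩
  obtain ⟨h2, h3⟩ := hT₁ T ((le_max_left _ _).trans hT)
  have h4 : 0 < Real.log T := Real.log_pos (by linarith)
  have h5 : 0 < T := by linarith
  rw [lt_div_iff₀ h5] at h2
  rw [mul_div_assoc', div_le_iff₀ h4]
  exact h2.le

end

section sums

variable {ι : Type} {N : ι → ℝ}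

/-- the elements of norm at most `T` -/
noncomputable def Ls (hP : PITn N) (T : ℝ) : Finset ι := (fin hP T).toFinset

theorem mem_Ls (hP : PITn N) {T : ℝ} {v : ι} : v ∈ Ls hP T ↔ N v ≤ T := by
  simp [Ls]

theorem card_Ls (hP : PITn N) (T : ℝ) : ((Ls hP T).card : ℝ) = cf N T := by
  rw [Ls, cf, Set.ncard_eq_toFinset_card _ (fin hP T)]

/-- the sum of the reciprocals -/
noncomputable def gs (hP : PITn N) (T : ℝ) : ℝ := ∑ v ∈ Ls hP T, 1 / (N v * Real.log (N v))

theorem gs_step (hP : PITn N) (h2 : ∀ v, 2 ≤ N v) {T T' : ℝ} (hT : T ≤ T') :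
    (cf N T' - cf N T) * (1 / (T' * Real.log T')) ≤ gs hP T' - gs hP T := by
  classical
  have hsub : Ls hP T ⊆ Ls hP T' := fun v hv => (mem_Ls hP).2 (((mem_Ls hP).1 hv).trans hT)
  have h3 : gs hP T' - gs hP T = ∑ v ∈ Ls hP T' \ Ls hP T, 1 / (N v * Real.log (N v)) := by
    rw [gs, gs, ← sum_sdiff hsub]
    ring
  have h4 : cf N T' - cf N T = ((Ls hP T' \ Ls hP T).card : ℝ) := by
    rw [card_sdiff_of_subset hsub, Nat.cast_sub (card_le_card hsub), card_Ls, card_Ls]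
  rw [h3, h4, ← nsmul_eq_mul]
  refine card_nsmul_le_sum _ _ _ fun v hv => ?_
  have h5 : N v ≤ T' := (mem_Ls hP).1 (mem_sdiff.1 hv).1
  have h6 := h2 v
  have h7 : 0 < Real.log (N v) := Real.log_pos (by linarith)
  have h8 : Real.log (N v) ≤ Real.log T' := Real.log_le_log (by linarith) h5
  exact one_div_le_one_div_of_le (by positivity)
    (mul_le_mul h5 h8 h7.le (by linarith))

theorem gs_low (hP : PITn N) (h2 : ∀ v, 2 ≤ N v) {lam η T₀ : ℝ} (hl : 1 < lam)
    (hT₀ : 3 ≤ T₀) (hb : ∀ T, T₀ ≤ T →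
      (1 - η) * (lam - 1) * (T / Real.log T) ≤ cf N (lam * T) - cf N T) {V : ℝ} (hV : T₀ ≤ V)
    (m : ℕ) : (1 - η) * (lam - 1) / (lam * Real.log lam) *
      (1 / Real.log V - 1 / Real.log (V * lam ^ m)) ≤ gs hP (V * lam ^ m) - gs hP V := by
  have hll : 0 < Real.log lam := Real.log_pos hl
  induction m with
  | zero => simp
  | succ m ih =>
    obtain ⟨T, hTd⟩ : ∃ T, T = V * lam ^ m := ⟨_, rfl⟩
    have hlm : (1 : ℝ) ≤ lam ^ m := one_le_pow₀ hl.le
    have hT : T₀ ≤ T := by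
      rw [hTd]
      nlinarith
    have e : V * lam ^ (m + 1) = lam * T := by rw [hTd]; ring
    rw [e]
    rw [← hTd] at ih
    have h3 := hb T hT
    have hTT : T ≤ lam * T := by nlinarith
    have h4 := gs_step hP h2 hTT
    have hlT : 0 < Real.log T := Real.log_pos (by linarith)
    have hlT' : Real.log (lam * T) = Real.log lam + Real.log T :=
      Real.log_mul (by positivity) (by linarith)
    have hlT2 : 0 < Real.log (lam * T) := by rw [hlT']; positivity
    have hT0 : 0 < T := by linarith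
    have h5 : (1 - η) * (lam - 1) * (T / Real.log T) * (1 / (lam * T * Real.log (lam * T))) =
        (1 - η) * (lam - 1) / (lam * Real.log lam) *
          (1 / Real.log T - 1 / Real.log (lam * T)) := by
      have h6 : 1 / Real.log T - 1 / Real.log (lam * T) =
          Real.log lam / (Real.log T * Real.log (lam * T)) := by
        rw [hlT'] at hlT2 ⊢
        field_simp
        ring
      rw [h6]
      have : lam ≠ 0 := by linarith
      field_simp
    have h7 : (1 - η) * (lam - 1) * (T / Real.log T) * (1 / (lam * T * Real.log (lam * T))) ≤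
        (cf N (lam * T) - cf N T) * (1 / (lam * T * Real.log (lam * T))) :=
      mul_le_mul_of_nonneg_right h3 (by positivity)
    rw [h5] at h7
    have h8 : (1 - η) * (lam - 1) / (lam * Real.log lam) *
        (1 / Real.log V - 1 / Real.log (lam * T)) =
        (1 - η) * (lam - 1) / (lam * Real.log lam) * (1 / Real.log V - 1 / Real.log T) +
        (1 - η) * (lam - 1) / (lam * Real.log lam) *
          (1 / Real.log T - 1 / Real.log (lam * T)) := by ring
    rw [h8]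
    linarith

/-- one term -/
theorem term {ε u n V : ℝ} (hε : 0 < ε) (hε1 : ε < 1) (hu : 0 < u) (hn : V < n) (hV : 3 ≤ V)
    (hlV : 1 ≤ Real.log V) (hVu : 24 / ε ≤ V * u) (hδ : u * Real.log n ≤ ε / 8) :
    (1 - ε / 8) ^ 2 * (3 / u) * (1 / (n * Real.log n)) ≤
      Real.log (1 + 3 / (n * (n ^ u - 1))) := by
  have hn0 : 0 < n := by linarith
  have hln : 1 ≤ Real.log n := hlV.trans (Real.log_le_log (by linarith) hn.le)
  obtain ⟨x, hx⟩ : ∃ x, x = u * Real.log n := ⟨_, rfl⟩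
  have hx0 : 0 < x := by rw [hx]; positivity
  have hx1 : x ≤ ε / 8 := by rw [hx]; exact hδ
  have hnu : n ^ u = Real.exp x := by rw [Real.rpow_def_of_pos hn0, hx, mul_comm]
  rw [hnu]
  have h1 : x ≤ Real.exp x - 1 := by linarith [Real.add_one_le_exp x]
  have h2 : (1 - ε / 8) * (Real.exp x - 1) ≤ x := by
    have h3 : 1 - x ≤ Real.exp (-x) := by linarith [Real.add_one_le_exp (-x)]
    have h4 : (1 - x) * Real.exp x ≤ 1 := by
      calc (1 - x) * Real.exp x ≤ Real.exp (-x) * Real.exp x :=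
            mul_le_mul_of_nonneg_right h3 (Real.exp_pos x).le
        _ = 1 := by rw [← Real.exp_add, neg_add_cancel, Real.exp_zero]
    have h5 : (1 - x) * (Real.exp x - 1) ≤ x := by linarith
    nlinarith
  obtain ⟨D, hD⟩ : ∃ D, D = Real.exp x - 1 := ⟨_, rfl⟩
  rw [← hD] at h1 h2 ⊢
  have hD0 : 0 < D := by linarith
  obtain ⟨y, hy⟩ : ∃ y, y = 3 / (n * D) := ⟨_, rfl⟩
  rw [← hy]
  have hy0 : 0 < y := by rw [hy]; positivity
  have hy1 : y ≤ ε / 8 := by
    rw [hy, div_le_iff₀ (by positivity)]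
    have h6 : 24 / ε ≤ n * D := by
      calc 24 / ε ≤ V * u := hVu
        _ ≤ n * x := by
          rw [hx]
          have : V * u ≤ n * u := mul_le_mul_of_nonneg_right hn.le hu.le
          nlinarith [mul_pos hn0 hu]
        _ ≤ n * D := mul_le_mul_of_nonneg_left h1 hn0.le
    rw [div_le_iff₀ hε] at h6
    linarith
  have h7 : (1 - ε / 8) * y ≤ Real.log (1 + y) := by
    have h8 := Real.one_sub_inv_le_log_of_pos (x := 1 + y) (by linarith)
    have h9 : (1 - y) * y ≤ 1 - (1 + y)⁻¹ := by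
      have h10 : 1 - (1 + y)⁻¹ = y / (1 + y) := by
        field_simp
        ring
      rw [h10, le_div_iff₀ (by linarith)]
      nlinarith [mul_pos hy0 hy0, mul_pos hy0 (mul_pos hy0 hy0)]
    have h11 : (1 - ε / 8) * y ≤ (1 - y) * y :=
      mul_le_mul_of_nonneg_right (by linarith) hy0.le
    linarith
  have h12 : (1 - ε / 8) * (3 / u) * (1 / (n * Real.log n)) ≤ y := by
    rw [hy, le_div_iff₀ (by positivity)]
    have h13 : (1 - ε / 8) * (3 / u) * (1 / (n * Real.log n)) * (n * D) =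
        3 * ((1 - ε / 8) * D) / x := by
      rw [hx]
      have : Real.log n ≠ 0 := by linarith
      field_simp
    rw [h13, div_le_iff₀ hx0]
    linarith
  calc (1 - ε / 8) ^ 2 * (3 / u) * (1 / (n * Real.log n))
      = (1 - ε / 8) * ((1 - ε / 8) * (3 / u) * (1 / (n * Real.log n))) := by ring
    _ ≤ (1 - ε / 8) * y := mul_le_mul_of_nonneg_left h12 (by linarith)
    _ ≤ _ := h7

theorem num1 {ε lam : ℝ} (hε : 0 < ε) (hε1 : ε < 1) (hlam : lam = 1 + ε / 8) :
    (1 - ε / 8) ^ 2 ≤ (1 - ε / 8) * (lam - 1) / (lam * Real.log lam) := by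
  have hl : 1 < lam := by rw [hlam]; linarith
  have hll : 0 < Real.log lam := Real.log_pos hl
  rw [le_div_iff₀ (by positivity)]
  have h3 : Real.log lam ≤ lam - 1 := Real.log_le_sub_one_of_pos (by linarith)
  have h4 : (1 - ε / 8) * lam ≤ 1 := by rw [hlam]; nlinarith
  have h5 : 0 ≤ 1 - ε / 8 := by linarith
  calc (1 - ε / 8) ^ 2 * (lam * Real.log lam)
      = (1 - ε / 8) * ((1 - ε / 8) * lam) * Real.log lam := by ring
    _ ≤ (1 - ε / 8) * 1 * (lam - 1) := by
      apply mul_le_mul _ h3 hll.le (by linarith)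
      exact mul_le_mul_of_nonneg_left h4 h5
    _ = _ := by ring

theorem num2 {ε : ℝ} (hε : 0 < ε) (hε1 : ε < 1) :
    1 - 2 * ε ≤ (1 - ε / 8) ^ 4 * (1 - 9 / 8 * ε) := by
  by_cases hneg : 1 - 9 / 8 * ε ≤ 0
  · have h5 : (1 - ε / 8) ^ 4 ≤ 1 := pow_le_one₀ (by linarith) (by linarith)
    nlinarith
  · push Not at hneg
    have h5 : 1 - ε / 2 ≤ (1 - ε / 8) ^ 4 := by
      have := one_add_mul_le_pow (a := -(ε / 8)) (by linarith) 4
      have e1 : (1 : ℝ) + -(ε / 8) = 1 - ε / 8 := by ring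
      rw [e1] at this
      push_cast at this
      linarith
    nlinarith

theorem num3 {ε δ u l a b : ℝ} (hε : 0 < ε) (hε1 : ε < 1) (hδ0 : 0 < δ) (hu : 0 < u) (hl : 1 ≤ l)
    (hul : u * l ≤ δ * (ε / 16)) (ha : a = (1 + ε) * l) (hb0 : 0 < b) (hb : δ / (2 * u) ≤ b) :
    (1 - 9 / 8 * ε) / l ≤ 1 / a - 1 / b := by
  have hl0 : 0 < l := by linarith
  have h3 : 1 / b ≤ 2 * u / δ := by
    rw [div_le_div_iff₀ hb0 hδ0]
    rw [div_le_iff₀ (by positivity)] at hb
    linarith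
  have h4 : 2 * u / δ ≤ ε / 8 / l := by
    rw [div_le_div_iff₀ hδ0 hl0]
    linarith
  have h5 : (1 - ε) / l ≤ 1 / a := by
    rw [ha, div_le_div_iff₀ hl0 (by positivity)]
    have e : (1 - ε) * ((1 + ε) * l) = l - ε ^ 2 * l := by ring
    rw [e]
    have : 0 ≤ ε ^ 2 * l := by positivity
    linarith
  have h6 : (1 - 9 / 8 * ε) / l = (1 - ε) / l - ε / 8 / l := by
    field_simp
    ring
  rw [h6]
  linarith

theorem small {L κ : ℝ} (hκ : 0 < κ) : ∃ u₀ : ℝ, 0 < u₀ ∧ u₀ < 1 / 2 ∧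
    ∀ u : ℝ, 0 < u → u < u₀ → L ≤ Real.log (1 / u) ∧ u * Real.log (1 / u) ≤ κ := by
  have h1 : ∀ᶠ u : ℝ in 𝓝[>] 0, Real.log u ≤ -L :=
    Real.tendsto_log_nhdsGT_zero.eventually (eventually_le_atBot _)
  have h2 : ∀ᶠ u : ℝ in 𝓝[>] 0, -κ < Real.log u * u := by
    have h0 := (tendsto_log_mul_rpow_nhdsGT_zero (r := 1) one_pos).eventually
      (lt_mem_nhds (show -κ < 0 by linarith))
    filter_upwards [h0] with u hu
    rwa [Real.rpow_one] at hu
  obtain ⟨v, hv, hv2⟩ := mem_nhdsGT_iff_exists_Ioo_subset.1 (h1.and h2)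
  have hv0 : (0 : ℝ) < v := hv
  refine ⟨min v (1 / 4), by positivity, lt_of_le_of_lt (min_le_right _ _) (by norm_num), ?_⟩
  intro u hu huv
  obtain ⟨h3, h4⟩ := hv2 ⟨hu, lt_of_lt_of_le huv (min_le_left _ _)⟩
  have e : Real.log (1 / u) = -Real.log u := by rw [one_div, Real.log_inv]
  rw [e]
  constructor
  · linarith
  · nlinarith

/-- **ELOW**, for abstract norms. -/
theorem elow_abs (h2 : ∀ v, 2 ≤ N v) (hint : ∀ v, ∃ n : ℕ, N v = n) (hP : PITn N) :
    ∀ ε : ℝ, 0 < ε → ε < 1 → ∃ u₀ : ℝ, 0 < u₀ ∧ u₀ < 1 / 2 ∧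
    ∀ u : ℝ, 0 < u → u < u₀ → ∃ s : Finset ι, (∀ v ∈ s, u ^ (-(1 + ε)) ≤ N v) ∧
      (1 - 2 * ε) * 3 / (u * Real.log (1 / u)) ≤
        ∑ v ∈ s, Real.log (1 + 3 / (N v * ((N v) ^ u - 1))) := by
  classical
  intro ε hε hε1
  obtain ⟨lam, hlam⟩ : ∃ lam, lam = 1 + ε / 8 := ⟨_, rfl⟩
  have hl : 1 < lam := by rw [hlam]; linarith
  obtain ⟨T₀, hT₀, hb⟩ := blk hP hint hl (η := ε / 8) (by linarith)
  obtain ⟨u₀, hu₀, hu₀2, hsm⟩ := small
    (L := max (max 1 (Real.log T₀)) (Real.log (24 / ε) / ε)) (κ := ε / 8 * (ε / 16)) (by positivity)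
  refine ⟨u₀, hu₀, hu₀2, fun u hu huu => ?_⟩
  obtain ⟨hL, hul⟩ := hsm u hu huu
  obtain ⟨l, hld⟩ : ∃ l, l = Real.log (1 / u) := ⟨_, rfl⟩
  rw [← hld] at hL hul ⊢
  have hL1 : 1 ≤ l := le_trans (le_max_left _ _) (le_trans (le_max_left _ _) hL)
  have hL2 : Real.log T₀ ≤ l := le_trans (le_max_right _ _) (le_trans (le_max_left _ _) hL)
  have hL3 : Real.log (24 / ε) ≤ ε * l := by
    have h := le_trans (le_max_right _ _) hL
    rw [div_le_iff₀ hε] at h
    linarith
  have hlu : Real.log u = -l := by rw [hld, one_div, Real.log_inv, neg_neg]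
  have hu1 : u = Real.exp (-l) := by rw [← hlu, Real.exp_log hu]
  obtain ⟨V, hVd⟩ : ∃ V, V = u ^ (-(1 + ε)) := ⟨_, rfl⟩
  rw [← hVd]
  have hVe : V = Real.exp ((1 + ε) * l) := by
    rw [hVd, Real.rpow_def_of_pos hu, hlu]
    congr 1
    ring
  have hlV : Real.log V = (1 + ε) * l := by rw [hVe, Real.log_exp]
  have hV0 : 0 < V := by rw [hVe]; exact Real.exp_pos _
  have hVT : T₀ ≤ V := by
    have h3 : Real.log T₀ ≤ Real.log V := by
      rw [hlV]
      have : 0 ≤ ε * l := mul_nonneg hε.le (by linarith)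
      linarith
    exact (Real.log_le_log_iff (by linarith) hV0).1 h3
  have hVu : 24 / ε ≤ V * u := by
    have h3 : V * u = Real.exp (ε * l) := by
      rw [hVe, hu1, ← Real.exp_add]
      congr 1
      ring
    rw [h3, ← Real.exp_log (show (0 : ℝ) < 24 / ε by positivity)]
    exact Real.exp_le_exp.2 hL3
  -- the upper end
  obtain ⟨δ, hδ⟩ : ∃ δ, δ = ε / 8 := ⟨_, rfl⟩
  have hδ0 : 0 < δ := by rw [hδ]; positivity
  have hll : 0 < Real.log lam := Real.log_pos hl
  have hll1 : Real.log lam ≤ ε / 8 := by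
    have := Real.log_le_sub_one_of_pos (show 0 < lam by linarith)
    rw [hlam] at this ⊢
    linarith
  have hul2 : u * l ≤ δ * (ε / 16) := by rw [hδ]; exact hul
  have hul0 : u ≤ u * l := le_mul_of_one_le_right hu.le hL1
  have hδε : δ * (ε / 16) ≤ δ / 16 := by
    have := mul_le_mul_of_nonneg_left hε1.le hδ0.le
    linarith
  have hδ1 : δ ≤ 1 / 8 := by linarith
  have hW1 : Real.log V ≤ δ / u := by
    rw [le_div_iff₀ hu, hlV]
    have h3 : (1 + ε) * (u * l) ≤ 2 * (u * l) :=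
      mul_le_mul_of_nonneg_right (by linarith) (by linarith)
    linarith
  have hq : 0 ≤ (δ / u - Real.log V) / Real.log lam := div_nonneg (by linarith) hll.le
  obtain ⟨m, hm⟩ : ∃ m : ℕ, m = ⌊(δ / u - Real.log V) / Real.log lam⌋₊ := ⟨_, rfl⟩
  have hm1 : (m : ℝ) * Real.log lam ≤ δ / u - Real.log V := by
    rw [← le_div_iff₀ hll, hm]
    exact Nat.floor_le hq
  have hm2 : δ / u - Real.log V < (m + 1) * Real.log lam := by
    rw [← div_lt_iff₀ hll, hm]
    exact Nat.lt_floor_add_one _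
  obtain ⟨W, hWd⟩ : ∃ W, W = V * lam ^ m := ⟨_, rfl⟩
  have hlW : Real.log W = Real.log V + m * Real.log lam := by
    rw [hWd, Real.log_mul hV0.ne' (by positivity), Real.log_pow]
  have hW2 : Real.log W ≤ δ / u := by rw [hlW]; linarith
  have hW3 : δ / u - Real.log lam ≤ Real.log W := by rw [hlW]; linarith
  have hW4 : δ / (2 * u) ≤ Real.log W := by
    have h3 : Real.log lam ≤ δ / (2 * u) := by
      rw [le_div_iff₀ (by positivity)]
      have h5 : Real.log lam * (2 * u) ≤ 1 / 8 * (2 * u) :=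
        mul_le_mul_of_nonneg_right (by linarith) (by linarith)
      linarith
    have h4 : δ / u = δ / (2 * u) + δ / (2 * u) := by field_simp; norm_num
    linarith
  have hlW0 : 0 < Real.log W := lt_of_lt_of_le (by positivity) hW4
  have hWV : V ≤ W := by
    rw [hWd]
    exact le_mul_of_one_le_right hV0.le (one_le_pow₀ hl.le)
  refine ⟨Ls hP W \ Ls hP V, fun v hv => ?_, ?_⟩
  · have h3 := (mem_sdiff.1 hv).2
    rw [mem_Ls, not_le] at h3
    exact h3.le
  · have hsum : (1 - ε / 8) ^ 2 * (3 / u) * (gs hP W - gs hP V) ≤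
        ∑ v ∈ Ls hP W \ Ls hP V, Real.log (1 + 3 / (N v * ((N v) ^ u - 1))) := by
      have hsub : Ls hP V ⊆ Ls hP W := fun v hv => (mem_Ls hP).2 (((mem_Ls hP).1 hv).trans hWV)
      have h3 : gs hP W - gs hP V = ∑ v ∈ Ls hP W \ Ls hP V, 1 / (N v * Real.log (N v)) := by
        rw [gs, gs, ← sum_sdiff hsub]
        ring
      rw [h3, mul_sum]
      refine sum_le_sum fun v hv => ?_
      have h4 := (mem_sdiff.1 hv).2
      rw [mem_Ls, not_le] at h4
      have h5 : N v ≤ W := (mem_Ls hP).1 (mem_sdiff.1 hv).1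
      refine term hε hε1 hu h4 (by linarith) (by
        rw [hlV]
        have : 0 ≤ ε * l := mul_nonneg hε.le (by linarith)
        linarith) hVu ?_
      have h6 : Real.log (N v) ≤ δ / u :=
        (Real.log_le_log (by linarith [h2 v]) h5).trans hW2
      rw [le_div_iff₀ hu] at h6
      rw [← hδ]
      linarith
    refine le_trans ?_ hsum
    have hlow := gs_low hP h2 hl hT₀ hb hVT m
    rw [← hWd] at hlow
    -- the constant
    have hc := num1 hε hε1 hlam
    have hd : (1 - 9 / 8 * ε) / l ≤ 1 / Real.log V - 1 / Real.log W :=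
      num3 hε hε1 hδ0 hu hL1 hul2 hlV hlW0 hW4
    have hd2 : (1 - ε / 8) ^ 2 * (1 - 9 / 8 * ε) / l ≤ gs hP W - gs hP V := by
      by_cases hneg : 1 - 9 / 8 * ε ≤ 0
      · have h3 : (1 - ε / 8) ^ 2 * (1 - 9 / 8 * ε) / l ≤ 0 :=
          div_nonpos_of_nonpos_of_nonneg (mul_nonpos_of_nonneg_of_nonpos (by positivity) hneg)
            (by linarith)
        have h4 : gs hP V ≤ gs hP W := by
          refine sum_le_sum_of_subset_of_nonneg
            (fun v hv => (mem_Ls hP).2 (((mem_Ls hP).1 hv).trans hWV)) fun v _ _ => ?_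
          have := h2 v
          have : 0 < Real.log (N v) := Real.log_pos (by linarith)
          positivity
        linarith
      · push Not at hneg
        refine le_trans ?_ hlow
        rw [mul_div_assoc]
        exact mul_le_mul hc hd (div_nonneg hneg.le (by linarith))
          (le_trans (sq_nonneg (1 - ε / 8)) hc)
    have hfin : (1 - 2 * ε) * 3 / (u * l) ≤
        (1 - ε / 8) ^ 2 * (3 / u) * ((1 - ε / 8) ^ 2 * (1 - 9 / 8 * ε) / l) := by
      have h3 : (1 - ε / 8) ^ 2 * (3 / u) * ((1 - ε / 8) ^ 2 * (1 - 9 / 8 * ε) / l) =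
          ((1 - ε / 8) ^ 4 * (1 - 9 / 8 * ε)) * 3 / (u * l) := by
        field_simp
      rw [h3]
      have h4 := num2 hε hε1
      exact div_le_div_of_nonneg_right (mul_le_mul_of_nonneg_right h4 (by norm_num)) (by positivity)
    exact hfin.trans (mul_le_mul_of_nonneg_left hd2 (by positivity))

end sums

end Pool.Agent.N42.RSA
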