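import Mathlib
import Pool.Agent.N604.MW.Stm10

set_option autoImplicit false

/-!
# No asymptotic formula in dimension at most `k`
-/

namespace Pool.Agent.N42.AD

open Pool.Agent.N604.MW Filter Topology

theorem aconv : S_ACONV := by
  intro s k α c hs hsk hα hc h
  have h1 := h (1 / (2 * c)) (by positivity)
  have e : 1 / (2 * c) * c = 1 / 2 := by field_simp
  rw [e] at h1
  have h2 := (h1.eventually (Ioo_mem_nhds (show (1 / 4 : ℝ) < 1 / 2 by norm_num)
    (show (1 / 2 : ℝ) < 1 by norm_num))).and (eventually_ge_atTop 1)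
  obtain ⟨y, ⟨hy1, hy2⟩, hy3⟩ := h2.exists
  have hk : (0 : ℝ) < k := by exact_mod_cast (by omega : 0 < k)
  have hsk' : (s : ℝ) / k - 1 ≤ 0 := by
    have h3 : (s : ℝ) / k ≤ 1 := by
      rw [div_le_one hk]
      exact_mod_cast hsk
    linarith
  have h4 : y ^ ((s : ℝ) / k - 1) ≤ 1 := Real.rpow_le_one_of_one_le_of_nonpos hy3 hsk'
  have h5 : 0 < y ^ ((s : ℝ) / k - 1) := Real.rpow_pos_of_pos (by linarith) _
  rw [lt_div_iff₀ h5] at hy1
  rw [div_lt_iff₀ h5] at hy2
  have h6 : (NF (fun i => fk k (α i)) y (1 / (2 * c)) : ℝ) < 1 := by linarith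
  have h7 : (0 : ℝ) < NF (fun i => fk k (α i)) y (1 / (2 * c)) := by
    refine lt_trans ?_ hy1
    positivity
  have h8 : NF (fun i => fk k (α i)) y (1 / (2 * c)) < 1 := by exact_mod_cast h6
  have h9 : 0 < NF (fun i => fk k (α i)) y (1 / (2 * c)) := by exact_mod_cast h7
  omega

end Pool.Agent.N42.AD
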