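import Pool.Agent.N979.CAP.Stm

/-!
# CAP/PTW (project CAP, subtask 5539, helper42): the pointwise inequality in a chart
-/

set_option autoImplicit false

namespace Pool.Agent.N42.CAP

open Real MeasureTheory Set Filter Topology Finset
open Pool.Agent.W664.Fill (jac)
open Pool.Agent.N979.CAP

/-- derivative of `1 / √(1 - t²)` -/
theorem d_isq (t : ℝ) (ht : t ^ 2 < 1) :
    HasDerivAt (fun u : ℝ => (√(1 - u ^ 2))⁻¹) (t / ((1 - t ^ 2) * √(1 - t ^ 2))) t := by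
  have h0 : 0 < 1 - t ^ 2 := by linarith
  have h1 : HasDerivAt (fun u : ℝ => 1 - u ^ 2) (-(2 * t)) t := by
    have := (hasDerivAt_pow 2 t).const_sub 1
    simpa using this
  have h2 := (h1.sqrt h0.ne').inv (Real.sqrt_pos.2 h0).ne'
  have h3 : √(1 - t ^ 2) ^ 2 = 1 - t ^ 2 := Real.sq_sqrt h0.le
  have h4 : √(1 - t ^ 2) ≠ 0 := (Real.sqrt_pos.2 h0).ne'
  refine HasDerivAt.congr_deriv h2 ?_
  rw [h3]
  field_simp

/-- derivative of `1 / (1 + √u)` -/
theorem d_kk (u : ℝ) (hu : 0 < u) :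
    HasDerivAt (fun u : ℝ => (1 + √u)⁻¹) (-(1 / (2 * √u * (1 + √u) ^ 2))) u := by
  have h1 : HasDerivAt (fun u : ℝ => 1 + √u) (1 / (2 * √u)) u :=
    (Real.hasDerivAt_sqrt hu.ne').const_add 1
  have h4 : 0 < √u := Real.sqrt_pos.2 hu
  have h2 := h1.inv (by positivity : (1 + √u) ≠ 0)
  refine HasDerivAt.congr_deriv h2 ?_
  field_simp

theorem dt_sq {x y : ℝ} (h : x ^ 2 + y ^ 2 < 1) (θ : ℝ) : dt x y θ ^ 2 < 1 := by
  have h1 := sin_sq_add_cos_sq θ
  have h2 : dt x y θ ^ 2 + (x * sin θ - y * cos θ) ^ 2 = x ^ 2 + y ^ 2 := by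
    unfold dt
    linear_combination (x ^ 2 + y ^ 2) * h1
  nlinarith [sq_nonneg (x * sin θ - y * cos θ)]

section
variable {X1 X2 : ℝ × ℝ → ℝ} {p : ℝ × ℝ} {A B : ℝ × ℝ →L[ℝ] ℝ}

theorem d_dt (h1 : HasFDerivAt X1 A p) (h2 : HasFDerivAt X2 B p) (θ : ℝ) :
    HasFDerivAt (fun q => dt (X1 q) (X2 q) θ) (cos θ • A + sin θ • B) p := by
  have h3 := (h1.mul_const (cos θ)).add (h2.mul_const (sin θ))
  exact h3

theorem d_hh (h1 : HasFDerivAt X1 A p) (h2 : HasFDerivAt X2 B p) (θ : ℝ)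
    (ht : dt (X1 p) (X2 p) θ ^ 2 < 1) :
    HasFDerivAt (fun q => hh θ (X1 q) (X2 q))
      ((2 / π / ((1 - dt (X1 p) (X2 p) θ ^ 2) * √(1 - dt (X1 p) (X2 p) θ ^ 2))) •
        ((sin θ - X2 p * dt (X1 p) (X2 p) θ) • A - (cos θ - X1 p * dt (X1 p) (X2 p) θ) • B)) p := by
  have h0 : 0 < 1 - dt (X1 p) (X2 p) θ ^ 2 := by linarith
  have h3 : HasFDerivAt (fun q => 2 / π * (X1 q * sin θ - X2 q * cos θ))
      ((2 / π) • (sin θ • A - cos θ • B)) p :=
    ((h1.mul_const (sin θ)).sub (h2.mul_const (cos θ))).const_mul (2 / π)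
  have h4 : HasFDerivAt (fun q => (√(1 - dt (X1 q) (X2 q) θ ^ 2))⁻¹)
      ((dt (X1 p) (X2 p) θ / ((1 - dt (X1 p) (X2 p) θ ^ 2) *
        √(1 - dt (X1 p) (X2 p) θ ^ 2))) • (cos θ • A + sin θ • B)) p := by
    have h := HasDerivAt.comp_hasFDerivAt (f := fun q => dt (X1 q) (X2 q) θ) p (d_isq _ ht)
      (d_dt h1 h2 θ)
    exact h
  have h5 := h3.mul h4
  refine HasFDerivAt.congr_fderiv h5 ?_
  ext v
  all_goals
    simp only [ContinuousLinearMap.coe_comp', Function.comp_apply, ContinuousLinearMap.add_apply,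
      ContinuousLinearMap.sub_apply, ContinuousLinearMap.smul_apply, smul_eq_mul]
    generalize hα : A _ = α
    generalize hβ : B _ = β
    have hs := sin_sq_add_cos_sq θ
    have h7 : √(1 - dt (X1 p) (X2 p) θ ^ 2) ^ 2 = 1 - dt (X1 p) (X2 p) θ ^ 2 :=
      Real.sq_sqrt h0.le
    have h8 : 0 < √(1 - dt (X1 p) (X2 p) θ ^ 2) := Real.sqrt_pos.2 h0
    have h9 : dt (X1 p) (X2 p) θ = X1 p * cos θ + X2 p * sin θ := rfl
    generalize dt (X1 p) (X2 p) θ = t at *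
    generalize √(1 - t ^ 2) = w at *
    have hπ := Real.pi_pos
    have h10 : t * sin θ - (X1 p * sin θ - X2 p * cos θ) * cos θ = X2 p := by
      rw [h9]; linear_combination X2 p * hs
    have h11 : t * cos θ + (X1 p * sin θ - X2 p * cos θ) * sin θ = X1 p := by
      rw [h9]; linear_combination X1 p * hs
    have e : (2 / π * (X1 p * sin θ - X2 p * cos θ)) *
        (t / ((1 - t ^ 2) * w) * (cos θ * α + sin θ * β)) + w⁻¹ *
        (2 / π * (sin θ * α - cos θ * β)) = 2 / π / ((1 - t ^ 2) * w) *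
        ((sin θ - X2 p * t) * α - (cos θ - X1 p * t) * β) := by
      have e1 : w⁻¹ * (2 / π * (sin θ * α - cos θ * β)) = 2 / π / ((1 - t ^ 2) * w) *
          ((1 - t ^ 2) * (sin θ * α - cos θ * β)) := by field_simp
      have e2 : (2 / π * (X1 p * sin θ - X2 p * cos θ)) *
        (t / ((1 - t ^ 2) * w) * (cos θ * α + sin θ * β)) = 2 / π / ((1 - t ^ 2) * w) *
          ((X1 p * sin θ - X2 p * cos θ) * t * (cos θ * α + sin θ * β)) := by ring
      rw [e1, e2, ← mul_add]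
      congr 1
      linear_combination (-t * α) * h10 + t * β * h11
    exact e

theorem d_xk (h1 : HasFDerivAt X1 A p) (h2 : HasFDerivAt X2 B p) {Y : ℝ × ℝ → ℝ}
    {Y' : ℝ × ℝ →L[ℝ] ℝ} (h3 : HasFDerivAt Y Y' p) (hr : X1 p ^ 2 + X2 p ^ 2 < 1) :
    HasFDerivAt (fun q => Y q * kk (X1 q) (X2 q))
      ((1 + √(1 - X1 p ^ 2 - X2 p ^ 2))⁻¹ • Y' +
        (Y p / (√(1 - X1 p ^ 2 - X2 p ^ 2) * (1 + √(1 - X1 p ^ 2 - X2 p ^ 2)) ^ 2)) •
          (X1 p • A + X2 p • B)) p := by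
  have h0 : 0 < 1 - X1 p ^ 2 - X2 p ^ 2 := by linarith
  have h4 : HasFDerivAt (fun q => 1 - X1 q ^ 2 - X2 q ^ 2)
      (-((2 * X1 p) • A) - (2 * X2 p) • B) p := by
    have e1 : HasFDerivAt (fun q => X1 q ^ 2) ((2 * X1 p) • A) p := by
      have := h1.pow 2
      refine HasFDerivAt.congr_fderiv this ?_
      simp
    have e2 : HasFDerivAt (fun q => X2 q ^ 2) ((2 * X2 p) • B) p := by
      have := h2.pow 2
      refine HasFDerivAt.congr_fderiv this ?_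
      simp
    exact (e1.const_sub 1).sub e2
  have h5 : HasFDerivAt (fun q => (1 + √(1 - X1 q ^ 2 - X2 q ^ 2))⁻¹)
      ((-(1 / (2 * √(1 - X1 p ^ 2 - X2 p ^ 2) * (1 + √(1 - X1 p ^ 2 - X2 p ^ 2)) ^ 2))) •
        (-((2 * X1 p) • A) - (2 * X2 p) • B)) p := by
    have h := HasDerivAt.comp_hasFDerivAt (f := fun q => 1 - X1 q ^ 2 - X2 q ^ 2) p (d_kk _ h0) h4
    exact h
  have h6 := h3.mul h5
  have h7 : (fun q => Y q * kk (X1 q) (X2 q)) =
      fun q => Y q * (1 + √(1 - X1 q ^ 2 - X2 q ^ 2))⁻¹ := by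
    funext q
    simp [kk]
  rw [h7]
  refine HasFDerivAt.congr_fderiv h6 ?_
  have h8 : 0 < √(1 - X1 p ^ 2 - X2 p ^ 2) := Real.sqrt_pos.2 h0
  ext v
  all_goals
    simp only [ContinuousLinearMap.coe_comp', Function.comp_apply, ContinuousLinearMap.add_apply,
      ContinuousLinearMap.sub_apply, ContinuousLinearMap.smul_apply, smul_eq_mul,
      ContinuousLinearMap.neg_apply]
    generalize √(1 - X1 p ^ 2 - X2 p ^ 2) = c at *
    field_simp
    ring

/-- the derivative of the statistic -/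
theorem d_Z (h1 : HasFDerivAt X1 A p) (h2 : HasFDerivAt X2 B p) (hr : X1 p ^ 2 + X2 p ^ 2 < 1)
    (N : ℕ) (ρ : ℝ → ℝ) :
    HasFDerivAt (fun q => π / N * ∑ j ∈ range N, ρ (th N j) * arcsin (dt (X1 q) (X2 q) (th N j)))
      ((π / N) • ∑ j ∈ range N, (ρ (th N j) * (1 / √(1 - dt (X1 p) (X2 p) (th N j) ^ 2))) •
        (cos (th N j) • A + sin (th N j) • B)) p := by
  refine HasFDerivAt.const_mul ?_ (π / N)
  refine HasFDerivAt.fun_sum fun j _ => ?_
  have ht := dt_sq hr (th N j)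
  have h3 : dt (X1 p) (X2 p) (th N j) ≠ -1 := by
    intro h; rw [h] at ht; norm_num at ht
  have h4 : dt (X1 p) (X2 p) (th N j) ≠ 1 := by
    intro h; rw [h] at ht; norm_num at ht
  have h5 := HasDerivAt.comp_hasFDerivAt (f := fun q => dt (X1 q) (X2 q) (th N j)) p
    (Real.hasDerivAt_arcsin h3 h4) (d_dt h1 h2 (th N j))
  have h6 := h5.const_mul (ρ (th N j))
  refine HasFDerivAt.congr_fderiv h6 ?_
  rw [smul_smul]

end

/-- Dual norm bound (helper664, `Pool.Agent.W664.Fill`). -/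
theorem dual_bound {E F G : ℝ} (hE : 0 < E) (hD : 0 < E * G - F ^ 2) {a b : ℝ}
    (hab : ∀ v w, (a * v + b * w) ^ 2 ≤ E * v ^ 2 + 2 * F * v * w + G * w ^ 2) :
    (E * G - F ^ 2) * a ^ 2 + (F * a - E * b) ^ 2 ≤ E * (E * G - F ^ 2) := by
  have h1 := hab (G * a - F * b) (E * b - F * a)
  set q : ℝ := G * a ^ 2 - 2 * F * a * b + E * b ^ 2 with hqd
  have h2 : a * (G * a - F * b) + b * (E * b - F * a) = q := by rw [hqd]; ring
  have h3 : E * (G * a - F * b) ^ 2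
      + 2 * F * (G * a - F * b) * (E * b - F * a) + G * (E * b - F * a) ^ 2
      = (E * G - F ^ 2) * q := by rw [hqd]; ring
  rw [h2, h3] at h1
  have h4 : q ≤ E * G - F ^ 2 := by
    by_contra hlt
    push Not at hlt
    nlinarith
  have h5 : (E * G - F ^ 2) * a ^ 2 + (F * a - E * b) ^ 2 = E * q := by rw [hqd]; ring
  rw [h5]
  exact mul_le_mul_of_nonneg_left h4 hE.le

/-- a linear form in coordinates -/
theorem lin (A : ℝ × ℝ →L[ℝ] ℝ) (v : ℝ × ℝ) : A v = v.1 * A (1, 0) + v.2 * A (0, 1) := by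
  have h : v = v.1 • ((1, 0) : ℝ × ℝ) + v.2 • ((0, 1) : ℝ × ℝ) := by
    ext <;> simp
  conv_lhs => rw [h]
  rw [map_add, map_smul, map_smul, smul_eq_mul, smul_eq_mul]

theorem main (h : S_CAR) : S_PTW := by
  intro ε hε
  obtain ⟨N₀, hN₀⟩ := h ε hε
  refine ⟨max N₀ 1, ?_⟩
  intro N hN X1 X2 g p E F G hE hD hX1 hX2 hg hgb hr hZ1 hZ2
  have hN1 : 1 ≤ N := (le_max_right _ _).trans hN
  have hNpos : (0 : ℝ) < N := by exact_mod_cast hN1
  have hπ := Real.pi_pos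
  obtain ⟨A, hA⟩ : ∃ A, A = fderiv ℝ X1 p := ⟨_, rfl⟩
  obtain ⟨B, hB⟩ : ∃ B, B = fderiv ℝ X2 p := ⟨_, rfl⟩
  obtain ⟨g', hg'⟩ : ∃ g', g' = fun j => fderiv ℝ (g j) p := ⟨_, rfl⟩
  have dA : HasFDerivAt X1 A p := by rw [hA]; exact hX1.hasFDerivAt
  have dB : HasFDerivAt X2 B p := by rw [hB]; exact hX2.hasFDerivAt
  have dg : ∀ j, HasFDerivAt (g j) (g' j) p := fun j => by rw [hg']; exact (hg j).hasFDerivAt
  obtain ⟨x, hx⟩ : ∃ x, x = X1 p := ⟨_, rfl⟩
  obtain ⟨y, hy⟩ : ∃ y, y = X2 p := ⟨_, rfl⟩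
  have hrp := hr p
  rw [← hx, ← hy] at hrp
  have hr1 : X1 p ^ 2 + X2 p ^ 2 < 1 := by rw [← hx, ← hy]; norm_num at hrp ⊢; linarith
  -- the vectors of the frame
  obtain ⟨Δ, hΔ⟩ : ∃ Δ, Δ = √(E * G - F ^ 2) := ⟨_, rfl⟩
  have hΔ0 : 0 < Δ := by rw [hΔ]; exact Real.sqrt_pos.2 hD
  have hΔ2 : Δ ^ 2 = E * G - F ^ 2 := by rw [hΔ]; exact Real.sq_sqrt hD.le
  obtain ⟨e, he⟩ : ∃ e, e = √E := ⟨_, rfl⟩
  have he0 : 0 < e := by rw [he]; exact Real.sqrt_pos.2 hE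
  have he2 : e ^ 2 = E := by rw [he]; exact Real.sq_sqrt hE.le
  obtain ⟨va, hva⟩ : ∃ va : ℝ × ℝ, va = (1 / e, 0) := ⟨_, rfl⟩
  obtain ⟨vb, hvb⟩ : ∃ vb : ℝ × ℝ, vb = (-F / (e * Δ), E / (e * Δ)) := ⟨_, rfl⟩
  have hdet : ∀ α β : ℝ × ℝ →L[ℝ] ℝ, α va * β vb - α vb * β va =
      (α (1, 0) * β (0, 1) - α (0, 1) * β (1, 0)) / Δ := by
    intro α β
    rw [lin α va, lin α vb, lin β va, lin β vb, hva, hvb]
    simp only
    rw [← he2]
    field_simp
    ring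
  have hbd : ∀ j, (g' j va) ^ 2 + (g' j vb) ^ 2 ≤ 1 := by
    intro j
    have h1 := dual_bound (a := g' j (1, 0)) (b := g' j (0, 1)) hE hD (fun v w => by
      have h2 := hgb j (v, w)
      have h3 : g' j (v, w) = v * g' j (1, 0) + w * g' j (0, 1) := lin (g' j) (v, w)
      have h4 : fderiv ℝ (g j) p (v, w) = g' j (v, w) := by rw [hg']
      rw [h4, h3] at h2
      calc (g' j (1, 0) * v + g' j (0, 1) * w) ^ 2 =
            (v * g' j (1, 0) + w * g' j (0, 1)) ^ 2 := by ring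
        _ ≤ _ := h2)
    rw [lin (g' j) va, lin (g' j) vb, hva, hvb]
    simp only
    rw [← hΔ2, ← he2] at h1
    rw [← he2]
    generalize g' j (1, 0) = a at *
    generalize g' j (0, 1) = b at *
    have h5 : (1 / e * a + 0 * b) ^ 2 + (-F / (e * Δ) * a + e ^ 2 / (e * Δ) * b) ^ 2 =
        (Δ ^ 2 * a ^ 2 + (F * a - e ^ 2 * b) ^ 2) / (e ^ 2 * Δ ^ 2) := by
      field_simp
      ring
    rw [h5, div_le_one (by positivity)]
    exact h1
  -- the differentiated identities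
  have hid : ∀ ρ : ℝ → ℝ, (∀ q, π / N * ∑ j ∈ range N, ρ (th N j) *
        arcsin (dt (X1 q) (X2 q) (th N j)) = π / N * ∑ j ∈ range N, ρ (th N j) * g j q) →
      ∀ v : ℝ × ℝ, ∑ j ∈ range N, ρ (th N j) / √(1 - dt x y (th N j) ^ 2)
        * (cos (th N j) * A v + sin (th N j) * B v) = ∑ j ∈ range N, ρ (th N j) * g' j v := by
    intro ρ hρ v
    have h1 := d_Z dA dB hr1 N ρ
    have h2 : HasFDerivAt (fun q => π / N * ∑ j ∈ range N, ρ (th N j) * g j q)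
        ((π / N) • ∑ j ∈ range N, ρ (th N j) • g' j) p := by
      refine HasFDerivAt.const_mul ?_ (π / N)
      exact HasFDerivAt.fun_sum fun j _ => (dg j).const_mul _
    rw [show (fun q => π / N * ∑ j ∈ range N, ρ (th N j) *
      arcsin (dt (X1 q) (X2 q) (th N j))) = fun q => π / N * ∑ j ∈ range N, ρ (th N j) * g j q from
      funext hρ] at h1
    have h3 := congrArg (fun L : ℝ × ℝ →L[ℝ] ℝ => L v) (h1.unique h2)
    simp only [ContinuousLinearMap.smul_apply, ContinuousLinearMap.sum_apply, smul_eq_mul,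
      ContinuousLinearMap.add_apply] at h3
    have h4 : (π / N : ℝ) ≠ 0 := by positivity
    have h5 := mul_left_cancel₀ h4 h3
    rw [← h5, hx, hy]
    refine Finset.sum_congr rfl fun j _ => ?_
    ring
  have hc := hid cos hZ1
  have hs := hid sin hZ2
  have key := hN₀ N ((le_max_left _ _).trans hN) x y hrp.le (fun j => g' j va) (fun j => g' j vb)
    hbd (A va) (A vb) (B va) (B vb) (hc va) (hs va) (hc vb) (hs vb)
  -- the left side
  have hj1 : ∀ j, jac (fun q => hh (th N j) (X1 q) (X2 q)) (g j) p =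
      2 / π / ((1 - dt x y (th N j) ^ 2) * √(1 - dt x y (th N j) ^ 2)) *
        ((sin (th N j) - y * dt x y (th N j)) *
          (A (1, 0) * g' j (0, 1) - A (0, 1) * g' j (1, 0)) -
        (cos (th N j) - x * dt x y (th N j)) *
          (B (1, 0) * g' j (0, 1) - B (0, 1) * g' j (1, 0))) := by
    intro j
    unfold jac
    rw [(d_hh dA dB (th N j) (dt_sq hr1 _)).fderiv, (dg j).fderiv, ← hx, ← hy]
    simp only [ContinuousLinearMap.smul_apply, smul_eq_mul, ContinuousLinearMap.sub_apply]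
    ring
  obtain ⟨c, hcdef⟩ : ∃ c, c = √(1 - x ^ 2 - y ^ 2) := ⟨_, rfl⟩
  have h1xy : 0 < 1 - x ^ 2 - y ^ 2 := by rw [hx, hy]; linarith
  have hc0 : 0 < c := by rw [hcdef]; exact Real.sqrt_pos.2 h1xy
  have hc2 : c ^ 2 = 1 - x ^ 2 - y ^ 2 := by rw [hcdef]; exact Real.sq_sqrt h1xy.le
  have hj2 : - jac (fun q => X1 q * kk (X1 q) (X2 q)) X2 p
      + jac (fun q => X2 q * kk (X1 q) (X2 q)) X1 p =
      - ((A (1, 0) * B (0, 1) - A (0, 1) * B (1, 0)) / c) := by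
    unfold jac
    rw [(d_xk dA dB dA hr1).fderiv, (d_xk dA dB dB hr1).fderiv, dA.fderiv, dB.fderiv, ← hx, ← hy,
      ← hcdef]
    simp only [ContinuousLinearMap.smul_apply, smul_eq_mul, ContinuousLinearMap.add_apply]
    have h6 : x ^ 2 + y ^ 2 = 1 - c ^ 2 := by rw [hc2]; ring
    have h7 : 2 * (1 + c)⁻¹ + (x ^ 2 + y ^ 2) / (c * (1 + c) ^ 2) = 1 / c := by
      rw [h6]
      field_simp
      ring
    have h8 : (A (1, 0) * B (0, 1) - A (0, 1) * B (1, 0)) / c =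
      (2 * (1 + c)⁻¹ + (x ^ 2 + y ^ 2) / (c * (1 + c) ^ 2)) *
        (A (1, 0) * B (0, 1) - A (0, 1) * B (1, 0)) := by rw [h7]; ring
    rw [h8]
    ring
  have hfin : ∑ j ∈ range N, π / N * jac (fun q => hh (th N j) (X1 q) (X2 q)) (g j) p
      - jac (fun q => X1 q * kk (X1 q) (X2 q)) X2 p
      + jac (fun q => X2 q * kk (X1 q) (X2 q)) X1 p =
      Δ * (π / N * ∑ j ∈ range N,
        2 / π / ((1 - dt x y (th N j) ^ 2) * √(1 - dt x y (th N j) ^ 2))
        * ((sin (th N j) - y * dt x y (th N j)) * (A va * g' j vb - A vb * g' j va)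
          - (cos (th N j) - x * dt x y (th N j)) * (B va * g' j vb - B vb * g' j va))
      - (A va * B vb - A vb * B va) / √(1 - x ^ 2 - y ^ 2)) := by
    rw [sub_add, sub_eq_add_neg, neg_sub', sub_neg_eq_add, hj2, hdet, ← hcdef, mul_sub,
      Finset.mul_sum, Finset.mul_sum]
    simp_rw [hdet, hj1]
    rw [sub_eq_add_neg]
    congr 1
    · refine Finset.sum_congr rfl fun j _ => ?_
      field_simp
    · field_simp
  rw [hfin, ← hΔ, mul_comm (1 + ε)]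
  exact mul_le_mul_of_nonneg_left key hΔ0.le

end Pool.Agent.N42.CAP
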