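import Mathlib
import Pool.Agent.N988.EA.Stm5

/-!
# Project EA (helper988), part REF (subtask 8323), by helper42: the reference law
-/

set_option autoImplicit false

open MeasureTheory Set Filter
open scoped ENNReal Topology

namespace Pool.Agent.N42.EA

open Pool.Agent.N988.EA

noncomputable section

/-! ### Calculus -/

/-- polynomials of degree five -/
def po (a0 a1 a2 a3 a4 a5 x : ℝ) : ℝ :=
  a0 + a1 * x + a2 * x ^ 2 + a3 * x ^ 3 + a4 * x ^ 4 + a5 * x ^ 5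

lemma hpoly (a0 a1 a2 a3 a4 a5 x : ℝ) : HasDerivAt (po a0 a1 a2 a3 a4 a5)
    (a1 + 2 * a2 * x + 3 * a3 * x ^ 2 + 4 * a4 * x ^ 3 + 5 * a5 * x ^ 4) x := by
  have h0 := hasDerivAt_const x a0
  have h1 := (hasDerivAt_id' x).const_mul a1
  have h2 := (hasDerivAt_pow 2 x).const_mul a2
  have h3 := (hasDerivAt_pow 3 x).const_mul a3
  have h4 := (hasDerivAt_pow 4 x).const_mul a4
  have h5 := (hasDerivAt_pow 5 x).const_mul a5
  have h := ((((h0.add h1).add h2).add h3).add h4).add h5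
  exact HasDerivAt.congr_deriv h (by push_cast; ring)

lemma hexp (c x : ℝ) : HasDerivAt (fun x : ℝ => Real.exp (-(c * x)))
    (-(c * Real.exp (-(c * x)))) x := by
  have h := ((hasDerivAt_id' x).const_mul c).neg.exp
  exact HasDerivAt.congr_deriv h (by simp only [Pi.neg_apply]; ring)

lemma hE (c a0 a1 a2 a3 a4 a5 x : ℝ) :
    HasDerivAt (fun x : ℝ => Real.exp (-(c * x)) * po a0 a1 a2 a3 a4 a5 x)
      (Real.exp (-(c * x)) * ((a1 + 2 * a2 * x + 3 * a3 * x ^ 2 + 4 * a4 * x ^ 3 + 5 * a5 * x ^ 4)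
        - c * po a0 a1 a2 a3 a4 a5 x)) x := by
  have h := (hexp c x).mul (hpoly a0 a1 a2 a3 a4 a5 x)
  exact HasDerivAt.congr_deriv h (by ring)

lemma lim_mono (c : ℝ) (hc : 0 < c) (a : ℝ) (n : ℕ) :
    Tendsto (fun x : ℝ => a * (Real.exp (-(c * x)) * x ^ n)) atTop (𝓝 0) := by
  have h := (tendsto_rpow_mul_exp_neg_mul_atTop_nhds_zero (n : ℝ) c hc).const_mul a
  rw [mul_zero] at h
  refine h.congr fun x => ?_
  rw [Real.rpow_natCast, neg_mul]
  ring

lemma lim_poly (c : ℝ) (hc : 0 < c) (a0 a1 a2 a3 a4 a5 : ℝ) :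
    Tendsto (fun x : ℝ => Real.exp (-(c * x)) * po a0 a1 a2 a3 a4 a5 x) atTop (𝓝 0) := by
  have h := (((((lim_mono c hc a0 0).add (lim_mono c hc a1 1)).add (lim_mono c hc a2 2)).add
    (lim_mono c hc a3 3)).add (lim_mono c hc a4 4)).add (lim_mono c hc a5 5)
  simp only [add_zero] at h
  refine h.congr fun x => ?_
  unfold po
  ring

lemma lint_Ioi {g g' : ℝ → ℝ} {a l : ℝ} (hd : ∀ x ∈ Ici a, HasDerivAt g (g' x) x)
    (h0 : ∀ x ∈ Ioi a, 0 ≤ g' x) (hl : Tendsto g atTop (𝓝 l)) :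
    ∫⁻ x in Ioi a, ENNReal.ofReal (g' x) = ENNReal.ofReal (l - g a) := by
  have hi : IntegrableOn g' (Ioi a) := integrableOn_Ioi_deriv_of_nonneg' hd h0 hl
  rw [← ofReal_integral_eq_lintegral_ofReal hi
    ((ae_restrict_iff' measurableSet_Ioi).2 (ae_of_all _ h0)),
    integral_Ioi_of_hasDerivAt_of_nonneg' hd h0 hl]

lemma lint_Ioc {g g' : ℝ → ℝ} {a b : ℝ} (hab : a ≤ b) (hd : ∀ x, HasDerivAt g (g' x) x)
    (hc : Continuous g') (h0 : ∀ x ∈ Ioc a b, 0 ≤ g' x) :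
    ∫⁻ x in Ioc a b, ENNReal.ofReal (g' x) = ENNReal.ofReal (g b - g a) := by
  have hi : IntegrableOn g' (Ioc a b) :=
    (hc.continuousOn.integrableOn_Icc (a := a) (b := b)).mono_set Ioc_subset_Icc_self
  rw [← ofReal_integral_eq_lintegral_ofReal hi
    ((ae_restrict_iff' measurableSet_Ioc).2 (ae_of_all _ h0)),
    ← intervalIntegral.integral_of_le hab,
    intervalIntegral.integral_eq_sub_of_hasDerivAt (fun x _ => hd x)
      (hc.intervalIntegrable a b)]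

lemma lint_even {ψ : ℝ → ℝ≥0∞} (hψ : ∀ x, ψ (-x) = ψ x) :
    ∫⁻ x, ψ x = 2 * ∫⁻ x in Ioi 0, ψ x := by
  have h1 : ∫⁻ x in Iic 0, ψ x = ∫⁻ x in Ioi 0, ψ x := by
    rw [← setLIntegral_congr (Iio_ae_eq_Iic (a := (0 : ℝ)))]
    have h2 := (Measure.measurePreserving_neg (volume : Measure ℝ)).setLIntegral_comp_preimage_emb
      (MeasurableEquiv.neg ℝ).measurableEmbedding ψ (Iio 0)
    rw [← h2]
    have h3 : (fun x : ℝ => -x) ⁻¹' Iio 0 = Ioi 0 := by
      ext x; simp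
    have h4 : Neg.neg ⁻¹' Iio (0 : ℝ) = Ioi 0 := h3
    rw [h4]
    exact lintegral_congr fun x => hψ x
  rw [← lintegral_add_compl ψ (measurableSet_Ioi : MeasurableSet (Ioi (0 : ℝ))), compl_Ioi, h1,
    two_mul]

/-! ### The law -/

/-- the reference law -/
def rho : Measure ℝ := volume.withDensity fun x => ENNReal.ofReal (rh x)

lemma rh_cont : Continuous rh := by
  unfold rh
  fun_prop

lemma rh_meas : Measurable fun x => ENNReal.ofReal (rh x) :=
  ENNReal.measurable_ofReal.comp rh_cont.measurable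

lemma rh_neg (x : ℝ) : rh (-x) = rh x := by
  unfold rh
  rw [abs_neg, neg_sq]

lemma rh_pos {x : ℝ} (hx : 0 < x) : rh x = Real.exp (-(4 * x)) * po 1 3 2 0 0 0 x := by
  unfold rh po
  rw [abs_of_pos hx]
  ring

lemma rh_nonneg (x : ℝ) : 0 ≤ rh x := by
  unfold rh
  positivity

lemma Ht_sq (t : ℝ) : Ht t ^ 2 / 2 = Real.exp (-(4 * t)) * po (1 / 2) 1 (1 / 2) 0 0 0 t := by
  unfold Ht po
  rw [mul_pow, ← Real.exp_nat_mul]
  have : ((2 : ℕ) : ℝ) * -(2 * t) = -(4 * t) := by push_cast; ring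
  rw [this]
  ring

lemma Ht_le {t : ℝ} (ht : 0 ≤ t) : Ht t ≤ 1 := by
  unfold Ht
  rw [Real.exp_neg, ← div_eq_mul_inv, div_le_one (Real.exp_pos _)]
  have := Real.add_one_le_exp (2 * t)
  linarith

lemma Ht_nonneg {t : ℝ} (ht : 0 ≤ t) : 0 ≤ Ht t := by
  unfold Ht
  have := Real.exp_pos (-(2 * t))
  nlinarith

lemma Ht_sq_le {t : ℝ} (ht : 0 ≤ t) : Ht t ^ 2 / 2 ≤ 1 / 2 := by
  have h1 := Ht_le ht
  have h2 := Ht_nonneg ht
  nlinarith

lemma rho_Ioi {s : ℝ} (hs : 0 ≤ s) : rho (Ioi s) = ENNReal.ofReal (Ht s ^ 2 / 2) := by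
  unfold rho
  rw [withDensity_apply _ measurableSet_Ioi]
  have h1 := lint_Ioi (g := fun x => -(Real.exp (-(4 * x)) * po (1 / 2) 1 (1 / 2) 0 0 0 x))
    (g' := fun x => Real.exp (-(4 * x)) * po 1 3 2 0 0 0 x) (a := s) (l := 0)
    (fun x _ => HasDerivAt.congr_deriv (hE 4 (1 / 2) 1 (1 / 2) 0 0 0 x).neg (by unfold po; ring))
    (fun x hx => by
      have : 0 < x := lt_of_le_of_lt hs hx
      unfold po
      positivity)
    (by simpa using (lim_poly 4 (by norm_num) (1 / 2) 1 (1 / 2) 0 0 0).neg)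
  have e1 : Real.exp (-(4 * s)) * po (1 / 2) 1 (1 / 2) 0 0 0 s =
      0 - -(Real.exp (-(4 * s)) * po (1 / 2) 1 (1 / 2) 0 0 0 s) := by ring
  rw [Ht_sq, e1, ← h1]
  refine setLIntegral_congr_fun measurableSet_Ioi fun x hx => ?_
  rw [rh_pos (lt_of_le_of_lt hs hx)]

lemma rho_uni : Uni rho := by
  refine ⟨fun x => ENNReal.ofReal (rh x), rh_meas, fun x => ?_, ?_, rfl⟩
  · show ENNReal.ofReal (rh (-x)) = ENNReal.ofReal (rh x)
    rw [rh_neg]
  intro x hx y hy hxy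
  have hx' : 0 < x := hx
  have hy' : 0 < y := hy
  show ENNReal.ofReal (rh y) ≤ ENNReal.ofReal (rh x)
  refine ENNReal.ofReal_le_ofReal ?_
  have hanti : AntitoneOn (fun x : ℝ => Real.exp (-(4 * x)) * po 1 3 2 0 0 0 x) (Ici 0) := by
    refine antitoneOn_of_deriv_nonpos (convex_Ici 0) ?_ ?_ ?_
    · exact fun x _ => (hE 4 1 3 2 0 0 0 x).continuousAt.continuousWithinAt
    · exact fun x _ => (hE 4 1 3 2 0 0 0 x).differentiableAt.differentiableWithinAt
    · intro x hx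
      rw [interior_Ici] at hx
      have hx0 : 0 < x := hx
      rw [(hE 4 1 3 2 0 0 0 x).deriv]
      refine mul_nonpos_of_nonneg_of_nonpos (Real.exp_pos _).le ?_
      unfold po
      nlinarith
  rw [rh_pos hx', rh_pos hy']
  exact hanti hx'.le hy'.le hxy

lemma rho_Iio (s : ℝ) : rho (Iio (-s)) = rho (Ioi s) := by
  conv_rhs => rw [← rho_uni.symm]
  rw [Measure.map_apply measurable_neg measurableSet_Ioi]
  congr 1
  ext x
  simp

lemma rho_ac : rho ≪ volume := withDensity_absolutelyContinuous _ _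

lemma rho_Iic (s : ℝ) : rho (Iic s) = rho (Iio s) :=
  measure_congr (rho_ac.ae_eq (Iio_ae_eq_Iic (a := s)).symm)

instance rho_prob : IsProbabilityMeasure rho := by
  constructor
  have h0 : Ht 0 ^ 2 / 2 = 1 / 2 := by unfold Ht; simp
  have h1 : rho (Ioi 0) = ENNReal.ofReal (1 / 2) := by rw [rho_Ioi le_rfl, h0]
  have h2 : rho (Iic 0) = ENNReal.ofReal (1 / 2) := by
    rw [rho_Iic, ← h1, ← rho_Iio, neg_zero]
  rw [← Iic_union_Ioi (a := (0 : ℝ)), measure_union (Iic_disjoint_Ioi le_rfl) measurableSet_Ioi,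
    h1, h2, ← ENNReal.ofReal_add (by norm_num) (by norm_num)]
  norm_num

/-- the survival function -/
def Sv (s : ℝ) : ℝ := if 0 ≤ s then Ht s ^ 2 / 2 else 1 - Ht (-s) ^ 2 / 2

lemma Sv_nonneg (s : ℝ) : 0 ≤ Sv s := by
  unfold Sv
  split_ifs with h
  · positivity
  · have := Ht_sq_le (t := -s) (by linarith)
    linarith

lemma rho_Sv (s : ℝ) : rho (Ioi s) = ENNReal.ofReal (Sv s) := by
  unfold Sv
  split_ifs with h
  · exact rho_Ioi h
  · push Not at h
    have h1 : rho (Iic s) = ENNReal.ofReal (Ht (-s) ^ 2 / 2) := by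
      rw [rho_Iic, ← rho_Ioi (by linarith), ← rho_Iio, neg_neg]
    rw [← compl_Iic, prob_compl_eq_one_sub measurableSet_Iic, h1, ← ENNReal.ofReal_one,
      ENNReal.ofReal_sub _ (by positivity)]

lemma rho_Iio' (s : ℝ) : rho (Iio (-s)) = ENNReal.ofReal (Sv s) := by
  rw [rho_Iio, rho_Sv]

lemma rho_abs {t : ℝ} (ht : 0 ≤ t) (y : ℝ) : rho {x | t < |y + x|} =
    ENNReal.ofReal (Sv (t - y)) + ENNReal.ofReal (Sv (t + y)) := by
  have h1 : {x : ℝ | t < |y + x|} = Ioi (t - y) ∪ Iio (-(t + y)) := by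
    ext x
    simp only [mem_ofPred_eq, lt_abs, mem_union, mem_Ioi, mem_Iio]
    constructor
    · rintro (h | h)
      · left; linarith
      · right; linarith
    · rintro (h | h)
      · left; linarith
      · right; linarith
  rw [h1, measure_union _ measurableSet_Iio, rho_Sv, rho_Iio']
  rw [Set.disjoint_left]
  intro x hx hx'
  simp only [mem_Ioi, mem_Iio] at hx hx'
  linarith

/-- the numerical inequality -/
lemma num_ineq {t : ℝ} (ht : 0 ≤ t) :
    Real.exp (-(4 * t)) * po 1 (727 / 256) (215 / 64) 2 (7 / 12) (1 / 15) t ≤ Ht (11 / 10 * t) := by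
  have h1 : po 1 (727 / 256) (215 / 64) 2 (7 / 12) (1 / 15) t ≤
      (1 + 11 / 10 * t) * Real.exp (9 / 5 * t) := by
    have h2 := Real.sum_le_exp_of_nonneg (x := 9 / 5 * t) (by positivity) 6
    have h3 : po 1 (727 / 256) (215 / 64) 2 (7 / 12) (1 / 15) t ≤
        (1 + 11 / 10 * t) * ∑ i ∈ Finset.range 6, (9 / 5 * t) ^ i / (i.factorial : ℝ) := by
      simp only [Finset.sum_range_succ, Finset.sum_range_zero, Nat.factorial, po]
      push_cast
      have p1 : 0 ≤ t := ht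
      have p2 : 0 ≤ t ^ 2 := by positivity
      have p3 : 0 ≤ t ^ 3 := by positivity
      have p4 : 0 ≤ t ^ 4 := by positivity
      have p5 : 0 ≤ t ^ 5 := by positivity
      have p6 : 0 ≤ t ^ 6 := by positivity
      nlinarith
    exact h3.trans (mul_le_mul_of_nonneg_left h2 (by positivity))
  have h2 : Ht (11 / 10 * t) = Real.exp (-(4 * t)) * ((1 + 11 / 10 * t) * Real.exp (9 / 5 * t)) := by
    unfold Ht
    have : Real.exp (-(2 * (11 / 10 * t))) = Real.exp (-(4 * t)) * Real.exp (9 / 5 * t) := by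
      rw [← Real.exp_add]
      congr 1
      ring
    rw [this]
    ring
  rw [h2]
  exact mul_le_mul_of_nonneg_left h1 (Real.exp_pos _).le

/-! ### The tail of the sum -/

lemma piece_far {t : ℝ} (ht : 0 ≤ t) :
    ∫⁻ x in Ioi (0 : ℝ), ENNReal.ofReal (rh x) * ENNReal.ofReal (Sv (t + x)) =
      ENNReal.ofReal (Real.exp (-(4 * t)) * (1 / 8 + 215 / 1024 * t + 23 / 256 * t ^ 2)) := by
  set E := Real.exp (-(4 * t)) with hEt
  have h1 := lint_Ioi (g := fun x => -(E * (Real.exp (-(8 * x)) *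
      po (1 / 8 + 215 / 1024 * t + 23 / 256 * t ^ 2) (1 / 2 + 87 / 128 * t + 7 / 32 * t ^ 2)
        (3 / 4 + 23 / 32 * t + 1 / 8 * t ^ 2) (1 / 2 + 1 / 4 * t) (1 / 8) 0 x)))
    (g' := fun x => E * (Real.exp (-(8 * x)) * ((1 + 3 * x + 2 * x ^ 2) * (1 + t + x) ^ 2 / 2)))
    (a := 0) (l := 0)
    (fun x _ => HasDerivAt.congr_deriv ((hE 8 _ _ _ _ _ _ x).const_mul E).neg
      (by unfold po; ring))
    (fun x hx => by
      have : 0 < x := hx
      positivity)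
    (by simpa using ((lim_poly 8 (by norm_num) _ _ _ _ _ _).const_mul E).neg)
  have h2 : ENNReal.ofReal (E * (1 / 8 + 215 / 1024 * t + 23 / 256 * t ^ 2)) = ENNReal.ofReal
      (0 - -(E * (Real.exp (-(8 * 0)) *
      po (1 / 8 + 215 / 1024 * t + 23 / 256 * t ^ 2) (1 / 2 + 87 / 128 * t + 7 / 32 * t ^ 2)
        (3 / 4 + 23 / 32 * t + 1 / 8 * t ^ 2) (1 / 2 + 1 / 4 * t) (1 / 8) 0 0))) := by
    congr 1
    simp [po]
  rw [h2, ← h1]
  refine setLIntegral_congr_fun measurableSet_Ioi fun x hx => ?_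
  have hx0 : 0 < x := hx
  show ENNReal.ofReal (rh x) * ENNReal.ofReal (Sv (t + x)) = _
  rw [← ENNReal.ofReal_mul (rh_nonneg x)]
  congr 1
  unfold Sv
  rw [if_pos (by linarith), rh_pos hx0, Ht_sq]
  have e1 : Real.exp (-(4 * (t + x))) * Real.exp (-(4 * x)) = E * Real.exp (-(8 * x)) := by
    rw [hEt, ← Real.exp_add, ← Real.exp_add]
    congr 1
    ring
  calc _ = (Real.exp (-(4 * (t + x))) * Real.exp (-(4 * x))) * (po 1 3 2 0 0 0 x *
        po (1 / 2) 1 (1 / 2) 0 0 0 (t + x)) := by ring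
    _ = _ := by rw [e1]; unfold po; ring

lemma piece_near {t : ℝ} (ht : 0 ≤ t) :
    ∫⁻ x in Ioc (0 : ℝ) t, ENNReal.ofReal (rh x) * ENNReal.ofReal (Sv (t - x)) =
      ENNReal.ofReal (Real.exp (-(4 * t)) * (1 / 2 * t + 5 / 4 * t ^ 2 + t ^ 3 + 7 / 24 * t ^ 4
        + 1 / 30 * t ^ 5)) := by
  set E := Real.exp (-(4 * t)) with hEt
  have h1 := lint_Ioc (g := fun x => E * po 0 (1 / 2 + t + 1 / 2 * t ^ 2)
      (1 / 4 + t + 3 / 4 * t ^ 2) (-1 / 2 - 1 / 3 * t + 1 / 3 * t ^ 2) (-1 / 8 - 1 / 2 * t)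
      (1 / 5) x)
    (g' := fun x => E * ((1 + 3 * x + 2 * x ^ 2) * (1 + t - x) ^ 2 / 2)) (a := 0) (b := t) ht
    (fun x => HasDerivAt.congr_deriv ((hpoly _ _ _ _ _ _ x).const_mul E) (by ring))
    (by fun_prop)
    (fun x hx => by
      have : 0 < x := hx.1
      positivity)
  have h2 : ENNReal.ofReal (E * (1 / 2 * t + 5 / 4 * t ^ 2 + t ^ 3 + 7 / 24 * t ^ 4
        + 1 / 30 * t ^ 5)) = ENNReal.ofReal
      (E * po 0 (1 / 2 + t + 1 / 2 * t ^ 2)
      (1 / 4 + t + 3 / 4 * t ^ 2) (-1 / 2 - 1 / 3 * t + 1 / 3 * t ^ 2) (-1 / 8 - 1 / 2 * t)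
      (1 / 5) t - E * po 0 (1 / 2 + t + 1 / 2 * t ^ 2)
      (1 / 4 + t + 3 / 4 * t ^ 2) (-1 / 2 - 1 / 3 * t + 1 / 3 * t ^ 2) (-1 / 8 - 1 / 2 * t)
      (1 / 5) 0) := by
    congr 1
    unfold po
    ring
  rw [h2, ← h1]
  refine setLIntegral_congr_fun measurableSet_Ioc fun x hx => ?_
  have hx0 : 0 < x := hx.1
  have hxt : x ≤ t := hx.2
  show ENNReal.ofReal (rh x) * ENNReal.ofReal (Sv (t - x)) = _
  rw [← ENNReal.ofReal_mul (rh_nonneg x)]
  congr 1
  unfold Sv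
  rw [if_pos (by linarith), rh_pos hx0, Ht_sq]
  have e1 : Real.exp (-(4 * (t - x))) * Real.exp (-(4 * x)) = E := by
    rw [hEt, ← Real.exp_add]
    congr 1
    ring
  calc _ = (Real.exp (-(4 * (t - x))) * Real.exp (-(4 * x))) * (po 1 3 2 0 0 0 x *
        po (1 / 2) 1 (1 / 2) 0 0 0 (t - x)) := by ring
    _ = _ := by rw [e1]; unfold po; ring

lemma piece_mid {t : ℝ} (ht : 0 ≤ t) :
    ∫⁻ x in Ioi t, ENNReal.ofReal (rh x) * ENNReal.ofReal (Sv (t - x)) =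
      ENNReal.ofReal (Real.exp (-(4 * t)) * (3 / 8 + 727 / 1024 * t + 87 / 256 * t ^ 2)) := by
  set E := Real.exp (4 * t) with hEt
  have hfac : ∀ x, Real.exp (-(4 * x)) * (1 + 3 * x + 2 * x ^ 2) - E * (Real.exp (-(8 * x)) *
        ((1 + 3 * x + 2 * x ^ 2) * (1 + x - t) ^ 2 / 2)) =
      Real.exp (-(4 * x)) * (1 + 3 * x + 2 * x ^ 2) * (1 - Ht (x - t) ^ 2 / 2) := by
    intro x
    have e1 : Real.exp (-(4 * (x - t))) * Real.exp (-(4 * x)) = E * Real.exp (-(8 * x)) := by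
      rw [hEt, ← Real.exp_add, ← Real.exp_add]
      congr 1
      ring
    rw [Ht_sq]
    calc _ = Real.exp (-(4 * x)) * (1 + 3 * x + 2 * x ^ 2) - (E * Real.exp (-(8 * x))) *
        ((1 + 3 * x + 2 * x ^ 2) * (1 + x - t) ^ 2 / 2) := by ring
      _ = _ := by rw [← e1]; unfold po; ring
  have h1 := lint_Ioi (g := fun x => -(Real.exp (-(4 * x)) * po (1 / 2) 1 (1 / 2) 0 0 0 x) +
      E * (Real.exp (-(8 * x)) *
      po (1 / 8 - 215 / 1024 * t + 23 / 256 * t ^ 2) (1 / 2 - 87 / 128 * t + 7 / 32 * t ^ 2)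
        (3 / 4 - 23 / 32 * t + 1 / 8 * t ^ 2) (1 / 2 - 1 / 4 * t) (1 / 8) 0 x))
    (g' := fun x => Real.exp (-(4 * x)) * (1 + 3 * x + 2 * x ^ 2) - E * (Real.exp (-(8 * x)) *
        ((1 + 3 * x + 2 * x ^ 2) * (1 + x - t) ^ 2 / 2)))
    (a := t) (l := 0)
    (fun x _ => HasDerivAt.congr_deriv ((hE 4 (1 / 2) 1 (1 / 2) 0 0 0 x).neg.add
      ((hE 8 _ _ _ _ _ _ x).const_mul E)) (by unfold po; ring))
    (fun x hx => by
      have hx0 : t < x := hx
      have hx1 : 0 < x := lt_of_le_of_lt ht hx0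
      have h3 := Ht_sq_le (t := x - t) (by linarith)
      rw [hfac]
      have : 0 ≤ 1 - Ht (x - t) ^ 2 / 2 := by linarith
      positivity)
    (by
      have h3 := (lim_poly 4 (by norm_num) (1 / 2) 1 (1 / 2) 0 0 0).neg.add
        ((lim_poly 8 (by norm_num) (1 / 8 - 215 / 1024 * t + 23 / 256 * t ^ 2)
          (1 / 2 - 87 / 128 * t + 7 / 32 * t ^ 2) (3 / 4 - 23 / 32 * t + 1 / 8 * t ^ 2)
          (1 / 2 - 1 / 4 * t) (1 / 8) 0).const_mul E)
      rw [neg_zero, mul_zero, add_zero] at h3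
      exact h3)
  have h2 : ENNReal.ofReal (Real.exp (-(4 * t)) * (3 / 8 + 727 / 1024 * t + 87 / 256 * t ^ 2)) =
      ENNReal.ofReal (0 - (-(Real.exp (-(4 * t)) * po (1 / 2) 1 (1 / 2) 0 0 0 t) +
      E * (Real.exp (-(8 * t)) *
      po (1 / 8 - 215 / 1024 * t + 23 / 256 * t ^ 2) (1 / 2 - 87 / 128 * t + 7 / 32 * t ^ 2)
        (3 / 4 - 23 / 32 * t + 1 / 8 * t ^ 2) (1 / 2 - 1 / 4 * t) (1 / 8) 0 t))) := by
    congr 1
    have e1 : E * Real.exp (-(8 * t)) = Real.exp (-(4 * t)) := by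
      rw [hEt, ← Real.exp_add]
      congr 1
      ring
    rw [← mul_assoc, e1]
    unfold po
    ring
  rw [h2, ← h1]
  refine setLIntegral_congr_fun measurableSet_Ioi fun x hx => ?_
  have hx0 : t < x := hx
  have hx1 : 0 < x := lt_of_le_of_lt ht hx0
  show ENNReal.ofReal (rh x) * ENNReal.ofReal (Sv (t - x)) = _
  rw [← ENNReal.ofReal_mul (rh_nonneg x), hfac]
  congr 1
  unfold Sv
  rw [if_neg (by linarith), rh_pos hx1, neg_sub]
  unfold po
  ring

lemma Sv_meas : Measurable Sv := by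
  unfold Sv
  refine Measurable.ite measurableSet_Ici ?_ ?_
  · unfold Ht; fun_prop
  · unfold Ht; fun_prop

theorem tail_sum {t : ℝ} (ht : 0 ≤ t) :
    (rho.prod rho) {p | t < |p.1 + p.2|} ≤ ENNReal.ofReal (Ht (11 / 10 * t)) := by
  have hms : MeasurableSet {p : ℝ × ℝ | t < |p.1 + p.2|} :=
    measurableSet_lt measurable_const (by fun_prop)
  have hm : ∀ a : ℝ, Measurable fun x => ENNReal.ofReal (Sv (t - a * x)) := fun a =>
    ENNReal.measurable_ofReal.comp (Sv_meas.comp (by fun_prop))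
  have hm1 : Measurable fun x => ENNReal.ofReal (Sv (t - x)) := by simpa using hm 1
  have hm2 : Measurable fun x => ENNReal.ofReal (Sv (t + x)) := by simpa using hm (-1)
  rw [Measure.prod_apply hms]
  have h1 : ∀ x : ℝ, rho (Prod.mk x ⁻¹' {p : ℝ × ℝ | t < |p.1 + p.2|}) =
      ENNReal.ofReal (Sv (t - x)) + ENNReal.ofReal (Sv (t + x)) := fun x => rho_abs ht x
  simp_rw [h1]
  have h2 : ∫⁻ x, (ENNReal.ofReal (Sv (t - x)) + ENNReal.ofReal (Sv (t + x))) ∂rho =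
      ∫⁻ x, ENNReal.ofReal (rh x) * (ENNReal.ofReal (Sv (t - x)) + ENNReal.ofReal (Sv (t + x))) := by
    exact lintegral_withDensity_eq_lintegral_mul volume rh_meas (hm1.add hm2)
  rw [h2, lint_even]
  · have h3 : ∫⁻ x in Ioi (0 : ℝ), ENNReal.ofReal (rh x) *
        (ENNReal.ofReal (Sv (t - x)) + ENNReal.ofReal (Sv (t + x))) =
        (∫⁻ x in Ioi (0 : ℝ), ENNReal.ofReal (rh x) * ENNReal.ofReal (Sv (t - x))) +
        ∫⁻ x in Ioi (0 : ℝ), ENNReal.ofReal (rh x) * ENNReal.ofReal (Sv (t + x)) := by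
      exact (lintegral_congr fun x => mul_add _ _ _).trans (lintegral_add_left (rh_meas.mul hm1) _)
    have h4 : ∫⁻ x in Ioi (0 : ℝ), ENNReal.ofReal (rh x) * ENNReal.ofReal (Sv (t - x)) =
        (∫⁻ x in Ioc (0 : ℝ) t, ENNReal.ofReal (rh x) * ENNReal.ofReal (Sv (t - x))) +
        ∫⁻ x in Ioi t, ENNReal.ofReal (rh x) * ENNReal.ofReal (Sv (t - x)) := by
      rw [← lintegral_union measurableSet_Ioi Ioc_disjoint_Ioi_same, Ioc_union_Ioi_eq_Ioi ht]
    rw [h3, h4, piece_near ht, piece_mid ht, piece_far ht]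
    have hE0 := Real.exp_pos (-(4 * t))
    rw [← ENNReal.ofReal_add (by positivity) (by positivity),
      ← ENNReal.ofReal_add (by positivity) (by positivity),
      show (2 : ℝ≥0∞) = ENNReal.ofReal 2 by simp, ← ENNReal.ofReal_mul (by norm_num)]
    refine ENNReal.ofReal_le_ofReal (le_trans (le_of_eq ?_) (num_ineq ht))
    unfold po
    ring
  · intro x
    rw [rh_neg, sub_neg_eq_add, ← sub_eq_add_neg, add_comm (ENNReal.ofReal (Sv (t + x)))]

/-- **part REF** -/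
theorem t_REF : S_REF := by
  refine ⟨rho, rho_prob, rho_uni, fun t ht => ?_, fun t ht => tail_sum ht⟩
  have h1 := rho_abs ht 0
  simp only [zero_add, sub_zero, add_zero] at h1
  rw [h1]
  unfold Sv
  rw [if_pos ht, ← ENNReal.ofReal_add (by positivity) (by positivity), add_halves]

end

end Pool.Agent.N42.EA
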