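import Mathlib
import Pool.Agent.N378.KH.Stm

/-!
# Measurability of the slopes and of their volume
-/

set_option autoImplicit false

open MeasureTheory Finset
open scoped ENNReal

namespace Pool.Agent.N42.KH

open Pool.Agent.N378.KH

theorem t_MV : Pool.Agent.N378.KH.S_MV := by
  intro n m k j s Q p
  have hht : ∀ i, Measurable fun z : (Fin n × Fin (m + 1) → ℝ) × (Fin m → ℝ) =>
      ht j z.2 z.1 i := by
    intro i
    unfold ht
    fun_prop
  have hG : MeasurableSet {z : (Fin n × Fin (m + 1) → ℝ) × (Fin m → ℝ) |
      (∀ l, |z.2 l| ≤ 1) ∧ (below j s z.2 z.1 Q p).card = k} := by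
    have h1 : MeasurableSet {z : (Fin n × Fin (m + 1) → ℝ) × (Fin m → ℝ) |
        ∀ l, |z.2 l| ≤ 1} := by
      rw [Set.ofPred_forall]
      exact MeasurableSet.iInter fun l => measurableSet_le (by fun_prop) measurable_const
    have h2 : Measurable fun z : (Fin n × Fin (m + 1) → ℝ) × (Fin m → ℝ) =>
        (below j s z.2 z.1 Q p).card := by
      simp only [below, Finset.card_filter]
      refine Finset.measurable_sum _ fun i _ => ?_
      refine Measurable.ite ?_ measurable_const measurable_const
      exact (MeasurableSet.const (i ∉ Q)).inter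
        (measurableSet_lt ((hht i).const_mul s) ((hht p).const_mul s))
    exact h1.inter (h2 (measurableSet_singleton k))
  refine ⟨fun x => ?_, ?_⟩
  · exact measurable_prodMk_left hG
  · exact measurable_measure_prodMk_left hG

end Pool.Agent.N42.KH
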