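import Mathlib
import Pool.Agent.N576.MX2.E
import Pool.Agent.N576.MX.Uniq0

set_option autoImplicit false

/-!
# The same values lead to the same word
-/

namespace Pool.Agent.N42.MX2

open Pool.Agent.H499R2 Pool.Agent.TH880.MK Pool.Agent.N576.MK Pool.Agent.N576.MX2
open Pool.Agent.N576.MX (rn ofr piv pvs wv jj RUNREP UNIQ RUNX rn_succ)

lemma a_rn (g : List Bool) (m : ℕ) : (desc root (rn g true m)).a = piv g true := by
  induction m with
  | zero => simp [rn, piv]
  | succ m ih => rw [rn_succ, desc_snoc]; exact ih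

lemma b_rn (g : List Bool) (m : ℕ) : (desc root (rn g false m)).b = piv g false := by
  induction m with
  | zero => simp [rn, piv]
  | succ m ih => rw [rn_succ, desc_snoc]; exact ih

lemma wv_t (g : List Bool) (m : ℕ) : wv g true m = (desc root (rn g true m)).b := by simp [wv]

lemma wv_f (g : List Bool) (m : ℕ) : wv g false m = (desc root (rn g false m)).a := by simp [wv]

lemma wv_t' (g : List Bool) (m : ℕ) : wv g true (m + 1) = (desc root (rn g true m)).c := by
  rw [wv_t, rn_succ, desc_snoc]; rfl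

lemma wv_f' (g : List Bool) (m : ℕ) : wv g false (m + 1) = (desc root (rn g false m)).c := by
  rw [wv_f, rn_succ, desc_snoc]; rfl

lemma ab_ne (l : List Bool) : (desc root l).a ≠ (desc root l).b := by
  have h := (zv l.reverse).ne
  rwa [nd_eq, List.reverse_reverse] at h

lemma same_rn (g g' : List Bool) (c c' : Bool) (m m' : ℕ) (h1 : piv g c = piv g' c') (h2 : wv g c m = wv g' c' m')
    (h3 : wv g c (m + 1) = wv g' c' (m' + 1)) : c = c' ∧ rn g c m = rn g' c' m' := by
  cases c <;> cases c'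
  · rw [wv_f, wv_f] at h2
    rw [wv_f', wv_f'] at h3
    rw [← b_rn g m, ← b_rn g' m'] at h1
    exact ⟨rfl, Pool.Agent.N576.MX.uniq0 _ _ h3 (Or.inl ⟨h2, h1⟩)⟩
  · exfalso
    rw [wv_f, wv_t] at h2
    rw [wv_f', wv_t'] at h3
    rw [← b_rn g m, ← a_rn g' m'] at h1
    have h4 := Pool.Agent.N576.MX.uniq0 _ _ h3 (Or.inr ⟨h2, h1⟩)
    rw [h4] at h1
    exact ab_ne _ h1.symm
  · exfalso
    rw [wv_t, wv_f] at h2
    rw [wv_t', wv_f'] at h3
    rw [← a_rn g m, ← b_rn g' m'] at h1
    have h4 := Pool.Agent.N576.MX.uniq0 _ _ h3 (Or.inr ⟨h1, h2⟩)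
    rw [h4] at h1
    exact ab_ne _ h1
  · rw [wv_t, wv_t] at h2
    rw [wv_t', wv_t'] at h3
    rw [← a_rn g m, ← a_rn g' m'] at h1
    exact ⟨rfl, Pool.Agent.N576.MX.uniq0 _ _ h3 (Or.inl ⟨h1, h2⟩)⟩

theorem samew : SAMEW := by
  intro g g' c c' m m' s s' h1 h2 h3 h4 h5
  obtain ⟨rfl, h6⟩ := same_rn g g' c c' m m' h1 h2 h3
  have h7 : s = s' := by
    have h8 : (pt s).1 = (pt s').1 ∧ (pt s).2 = (pt s').2 := by
      unfold sz at h5
      unfold jj at h4
      cases c
      · simp only [Bool.false_eq_true, if_false] at h4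
        omega
      · simp only [if_true] at h4
        omega
    exact (em_inj s s' 1 1 one_pos one_pos (by rw [h8.1]) (by rw [h8.2])).1
  rw [ofr, ofr, h6, h7]

end Pool.Agent.N42.MX2
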