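import Pool.Agent.N906.RS.Stm
import Pool.Agent.N42.RSA

/-!
# Project RS (helper906): ELOW (helper42)
-/

set_option autoImplicit false

namespace Pool.Agent.N42.RS

open NumberField IsDedekindDomain Pool.Agent.H691R3 Pool.Agent.W223.AK Pool.Agent.N906.RS

/-- **ELOW**. -/
theorem elow (K : Type) [Field K] [NumberField K] (h : S_PIT K) : S_ELOW K :=
  Pool.Agent.N42.RSA.elow_abs (ι := Pr K) (N := fun v => Nv v) (fun v => two_le_Nv v)
    (fun v => ⟨Ideal.absNorm v.asIdeal, rfl⟩) h

end Pool.Agent.N42.RS
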